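import Mathlib

/-! MP_db5ef1_al: a finite ring that is both alternative and Jordan and has no finite basis of
quasi-identities. -/

namespace Pool.Agent.Results.MP_db5ef1_al.NoFiniteBasis

/-- Terms in the signature `{+, -, 0, ·}` of (not necessarily associative) rings. -/
inductive RTerm : Type
  | var (n : ℕ) : RTerm
  | zero : RTerm
  | neg (s : RTerm) : RTerm
  | add (s t : RTerm) : RTerm
  | mul (s t : RTerm) : RTerm

/-- Evaluation of terms. -/
def RTerm.eval {R : Type} [NonUnitalNonAssocRing R] (x : ℕ → R) : RTerm → R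
  | .var n => x n
  | .zero => 0
  | .neg s => - s.eval x
  | .add s t => s.eval x + t.eval x
  | .mul s t => s.eval x * t.eval x

/-- Quasi-identities: finitely many hypotheses `s_i = t_i` and a conclusion `s = t`. -/
structure QuasiIdentity : Type where
  /-- the hypotheses -/
  hyps : List (RTerm × RTerm)
  /-- left side of the conclusion -/
  lhs : RTerm
  /-- right side of the conclusion -/
  rhs : RTerm

/-- The quasi-identity `q` is true in `R`. -/
def Holds (R : Type) [NonUnitalNonAssocRing R] (q : QuasiIdentity) : Prop :=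
  ∀ x : ℕ → R, (∀ h ∈ q.hyps, h.1.eval x = h.2.eval x) → q.lhs.eval x = q.rhs.eval x

/-- `S` is a basis of quasi-identities of the ring `A`: the members of `S` are true in `A`, and
every quasi-identity true in `A` is true in every (not necessarily associative) ring in which all
members of `S` are true. -/
def IsBasis (A : Type) [NonUnitalNonAssocRing A] (S : Set QuasiIdentity) : Prop :=
  (∀ p ∈ S, Holds A p) ∧ ∀ q : QuasiIdentity, Holds A q →
    ∀ (R : Type) [NonUnitalNonAssocRing R], (∀ p ∈ S, Holds R p) → Holds R q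

/-- Alternative rings. -/
def IsAlternative (A : Type) [NonUnitalNonAssocRing A] : Prop :=
  ∀ x y : A, (x * x) * y = x * (x * y) ∧ (y * x) * x = y * (x * x)

/-- Jordan rings (linear notion). -/
def IsJordanRing (A : Type) [NonUnitalNonAssocRing A] : Prop :=
  ∀ x y : A, x * y = y * x ∧ ((x * x) * y) * x = (x * x) * (y * x)

section terms

/-- bound on the variables of a term -/
def RTerm.bound : RTerm → ℕ
  | .var n => n + 1
  | .zero => 0
  | .neg s => s.bound
  | .add s t => max s.bound t.bound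
  | .mul s t => max s.bound t.bound

theorem eval_congr {R : Type} [NonUnitalNonAssocRing R] (x y : ℕ → R) (t : RTerm)
    (h : ∀ n < t.bound, x n = y n) : t.eval x = t.eval y := by
  induction t with
  | var n => exact h n (Nat.lt_succ_self n)
  | zero => rfl
  | neg s ih => rw [RTerm.eval, RTerm.eval, ih h]
  | add s t ihs iht =>
    rw [RTerm.eval, RTerm.eval, ihs fun n hn => h n (lt_max_of_lt_left hn),
      iht fun n hn => h n (lt_max_of_lt_right hn)]
  | mul s t ihs iht =>
    rw [RTerm.eval, RTerm.eval, ihs fun n hn => h n (lt_max_of_lt_left hn),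
      iht fun n hn => h n (lt_max_of_lt_right hn)]

/-- bound on the variables of a quasi-identity -/
def QuasiIdentity.bound (q : QuasiIdentity) : ℕ :=
  (q.hyps.map fun h => h.1.bound + h.2.bound).sum + q.lhs.bound + q.rhs.bound

theorem hyp_bound (q : QuasiIdentity) (h : RTerm × RTerm) (hh : h ∈ q.hyps) :
    h.1.bound ≤ q.bound ∧ h.2.bound ≤ q.bound := by
  have : h.1.bound + h.2.bound ≤ (q.hyps.map fun h => h.1.bound + h.2.bound).sum :=
    List.single_le_sum (by simp) _ (List.mem_map.2 ⟨h, hh, rfl⟩)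
  unfold QuasiIdentity.bound
  omega

end terms

section ringA

/-- The four-element ring `A = x F_2[x] / (x^3)`: pairs `(α, β)` standing for `α x + β x²`. -/
@[ext] structure RA : Type where
  fst : ZMod 2
  snd : ZMod 2

instance : Zero RA := ⟨⟨0, 0⟩⟩
instance : Add RA := ⟨fun a b => ⟨a.fst + b.fst, a.snd + b.snd⟩⟩
instance : Neg RA := ⟨fun a => ⟨-a.fst, -a.snd⟩⟩

instance : Mul RA := ⟨fun a b => ⟨0, a.fst * b.fst⟩⟩

instance : NonUnitalNonAssocRing RA where
  add_assoc a b c := RA.ext (add_assoc _ _ _) (add_assoc _ _ _)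
  zero_add a := RA.ext (zero_add _) (zero_add _)
  add_zero a := RA.ext (add_zero _) (add_zero _)
  add_comm a b := RA.ext (add_comm _ _) (add_comm _ _)
  neg_add_cancel a := RA.ext (neg_add_cancel _) (neg_add_cancel _)
  nsmul := nsmulRec
  zsmul := zsmulRec
  left_distrib a b c := RA.ext (add_zero _).symm (mul_add _ _ _)
  right_distrib a b c := RA.ext (add_zero _).symm (add_mul _ _ _)
  zero_mul a := RA.ext rfl (zero_mul _)
  mul_zero a := RA.ext rfl (mul_zero _)

theorem RA_add (a b : RA) : a + b = ⟨a.fst + b.fst, a.snd + b.snd⟩ := rfl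
theorem RA_mul (a b : RA) : a * b = ⟨0, a.fst * b.fst⟩ := rfl
theorem RA_zero : (0 : RA) = ⟨0, 0⟩ := rfl
theorem RA_neg (a : RA) : -a = ⟨-a.fst, -a.snd⟩ := rfl

instance : Finite RA :=
  Finite.of_injective (fun a : RA => (a.fst, a.snd)) fun a b h =>
    RA.ext (congrArg Prod.fst h) (congrArg Prod.snd h)

theorem RA_alt : IsAlternative RA := by
  intro x y
  simp [RA_mul]

theorem RA_jordan : IsJordanRing RA := by
  intro x y
  simp [RA_mul, mul_comm]

end ringA

section ringB

variable (X : Type) [AddCommGroup X] [Module (ZMod 2) X]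
  (K : Submodule (ZMod 2) (X → ZMod 2))

/-- The ring `X^* ⊕ (functions on X modulo K)`. -/
@[ext] structure RB : Type where
  fst : Module.Dual (ZMod 2) X
  snd : (X → ZMod 2) ⧸ K

variable {X} {K}

/-- product of functionals as functions -/
def pw (v w : Module.Dual (ZMod 2) X) : X → ZMod 2 := fun x => v x * w x

instance : Zero (RB X K) := ⟨⟨0, 0⟩⟩
instance : Add (RB X K) := ⟨fun a b => ⟨a.fst + b.fst, a.snd + b.snd⟩⟩
instance : Neg (RB X K) := ⟨fun a => ⟨-a.fst, -a.snd⟩⟩
instance : Mul (RB X K) := ⟨fun a b => ⟨0, K.mkQ (pw a.fst b.fst)⟩⟩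

instance : NonUnitalNonAssocRing (RB X K) where
  add_assoc a b c := RB.ext (add_assoc _ _ _) (add_assoc _ _ _)
  zero_add a := RB.ext (zero_add _) (zero_add _)
  add_zero a := RB.ext (add_zero _) (add_zero _)
  add_comm a b := RB.ext (add_comm _ _) (add_comm _ _)
  neg_add_cancel a := RB.ext (neg_add_cancel _) (neg_add_cancel _)
  nsmul := nsmulRec
  zsmul := zsmulRec
  left_distrib a b c := RB.ext (add_zero _).symm (by
    change K.mkQ (pw a.fst (b.fst + c.fst)) = K.mkQ (pw a.fst b.fst) + K.mkQ (pw a.fst c.fst)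
    rw [← map_add]
    congr 1
    funext x
    exact mul_add _ _ _)
  right_distrib a b c := RB.ext (add_zero _).symm (by
    change K.mkQ (pw (a.fst + b.fst) c.fst) = K.mkQ (pw a.fst c.fst) + K.mkQ (pw b.fst c.fst)
    rw [← map_add]
    congr 1
    funext x
    exact add_mul _ _ _)
  zero_mul a := RB.ext rfl (by
    change K.mkQ (pw 0 a.fst) = 0
    have h0 : pw (0 : Module.Dual (ZMod 2) X) a.fst = 0 := by
      funext x
      exact zero_mul _
    rw [h0, map_zero])
  mul_zero a := RB.ext rfl (by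
    change K.mkQ (pw a.fst 0) = 0
    have h0 : pw a.fst (0 : Module.Dual (ZMod 2) X) = 0 := by
      funext x
      exact mul_zero _
    rw [h0, map_zero])

theorem RB_add (a b : RB X K) : a + b = ⟨a.fst + b.fst, a.snd + b.snd⟩ := rfl
theorem RB_mul (a b : RB X K) : a * b = ⟨0, K.mkQ (pw a.fst b.fst)⟩ := rfl
theorem RB_zero : (0 : RB X K) = ⟨0, 0⟩ := rfl
theorem RB_neg (a : RB X K) : -a = ⟨-a.fst, -a.snd⟩ := rfl

instance [Finite X] : Finite (RB X K) := by
  have h1 : Finite (Module.Dual (ZMod 2) X) :=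
    Finite.of_injective (fun v : Module.Dual (ZMod 2) X => (v : X → ZMod 2))
      DFunLike.coe_injective
  have h2 : Finite ((X → ZMod 2) ⧸ K) := Finite.of_surjective K.mkQ K.mkQ_surjective
  exact Finite.of_injective (fun a : RB X K => (a.fst, a.snd)) fun a b h =>
    RB.ext (congrArg Prod.fst h) (congrArg Prod.snd h)

/-- span of products of functionals in `V'` -/
def Sq (V' : Submodule (ZMod 2) (Module.Dual (ZMod 2) X)) : Submodule (ZMod 2) (X → ZMod 2) :=
  Submodule.span (ZMod 2) {s | ∃ v ∈ V', ∃ w ∈ V', s = pw v w}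

theorem Sq_invariant (V' : Submodule (ZMod 2) (Module.Dual (ZMod 2) X)) (y : X)
    (hy : ∀ v ∈ V', v y = 0) (s : X → ZMod 2) (hs : s ∈ Sq V') (x : X) : s (x + y) = s x := by
  unfold Sq at hs
  induction hs using Submodule.span_induction with
  | mem s hs =>
    obtain ⟨v, hv, w, hw, rfl⟩ := hs
    simp only [pw, map_add, hy v hv, hy w hw, add_zero]
  | zero => rfl
  | add s t _ _ hs ht =>
    change s (x + y) + t (x + y) = s x + t x
    rw [hs, ht]
  | smul c s _ hs =>
    change c • s (x + y) = c • s x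
    rw [hs]

/-- the separation lemma -/
theorem separate (V' : Submodule (ZMod 2) (Module.Dual (ZMod 2) X)) (hKS : K ⊓ Sq V' = ⊥)
    (b : RB X K) (hb : b ≠ 0) :
    ∃ h : RB X K → RA, (∀ a b, h (a + b) = h a + h b) ∧
      (∀ a b, a.fst ∈ V' → b.fst ∈ V' → h (a * b) = h a * h b) ∧ h b ≠ 0 := by
  by_cases hb1 : b.fst = 0
  · obtain ⟨f, hf⟩ := K.mkQ_surjective b.snd
    have hfK : f ∉ K := by
      intro hfK
      apply hb
      apply RB.ext hb1
      rw [← hf]
      change K.mkQ f = 0
      rwa [Submodule.mkQ_apply, Submodule.Quotient.mk_eq_zero]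
    by_cases hfS : f ∈ K ⊔ Sq V'
    · obtain ⟨k, hk, s, hs, rfl⟩ := Submodule.mem_sup.1 hfS
      have hs0 : s ≠ 0 := by
        rintro rfl
        rw [add_zero] at hfK
        exact hfK hk
      obtain ⟨x, hx⟩ := Function.ne_iff.1 hs0
      -- the functional `ν`
      have hinj : Function.Injective ((Sq V').mkQ ∘ₗ K.subtype) := by
        rw [← LinearMap.ker_eq_bot, LinearMap.ker_eq_bot']
        intro m hm
        rw [LinearMap.comp_apply, Submodule.mkQ_apply, Submodule.Quotient.mk_eq_zero] at hm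
        have : (m : X → ZMod 2) ∈ K ⊓ Sq V' := ⟨m.2, hm⟩
        rw [hKS, Submodule.mem_bot] at this
        exact Subtype.ext this
      obtain ⟨g, hg⟩ := LinearMap.exists_leftInverse_of_injective _
        (LinearMap.ker_eq_bot.2 hinj)
      set ev : (X → ZMod 2) →ₗ[ZMod 2] ZMod 2 := LinearMap.proj x with hev
      set nu : (X → ZMod 2) →ₗ[ZMod 2] ZMod 2 :=
        ev - ev ∘ₗ K.subtype ∘ₗ g ∘ₗ (Sq V').mkQ with hnu
      have hnuK : ∀ k ∈ K, nu k = 0 := by
        intro k hk
        have h1 := LinearMap.congr_fun hg ⟨k, hk⟩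
        simp only [LinearMap.comp_apply, Submodule.subtype_apply, LinearMap.id_apply] at h1
        simp only [hnu, LinearMap.sub_apply, LinearMap.comp_apply, h1, Submodule.subtype_apply,
          sub_self]
      have hnuS : ∀ s ∈ Sq V', nu s = s x := by
        intro s hs
        have h1 : (Sq V').mkQ s = 0 := by
          rwa [Submodule.mkQ_apply, Submodule.Quotient.mk_eq_zero]
        simp only [hnu, LinearMap.sub_apply, LinearMap.comp_apply, h1, map_zero, sub_zero]
        rfl
      have hle : K ≤ LinearMap.ker nu := fun k hk => LinearMap.mem_ker.2 (hnuK k hk)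
      refine ⟨fun a => ⟨a.fst x, K.liftQ nu hle a.snd⟩, ?_, ?_, ?_⟩
      · intro a b
        rw [RA_add]
        exact RA.ext rfl (map_add _ _ _)
      · intro a b ha hb
        rw [RA_mul, RB_mul]
        apply RA.ext
        · rfl
        · change K.liftQ nu hle (K.mkQ (pw a.fst b.fst)) = a.fst x * b.fst x
          rw [Submodule.mkQ_apply, Submodule.liftQ_apply,
            hnuS _ (Submodule.subset_span ⟨_, ha, _, hb, rfl⟩)]
          rfl
      · intro h0
        have h1 : K.liftQ nu hle b.snd = 0 := congrArg RA.snd h0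
        rw [← hf, Submodule.mkQ_apply, Submodule.liftQ_apply, map_add, hnuK k hk, zero_add,
          hnuS s hs] at h1
        exact hx h1
    · obtain ⟨nu, hnu1, hnu2⟩ := Submodule.exists_le_ker_of_notMem hfS
      have hle : K ≤ LinearMap.ker nu := le_sup_left.trans hnu2
      refine ⟨fun a => ⟨0, K.liftQ nu hle a.snd⟩, ?_, ?_, ?_⟩
      · intro a b
        rw [RA_add]
        exact RA.ext (add_zero _).symm (map_add _ _ _)
      · intro a b ha hb
        rw [RA_mul, RB_mul]
        apply RA.ext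
        · rfl
        · change K.liftQ nu hle (K.mkQ (pw a.fst b.fst)) = 0 * 0
          rw [Submodule.mkQ_apply, Submodule.liftQ_apply, mul_zero]
          exact LinearMap.mem_ker.1 (hnu2 (Submodule.mem_sup_right
            (Submodule.subset_span ⟨_, ha, _, hb, rfl⟩)))
      · intro h0
        have h1 : K.liftQ nu hle b.snd = 0 := congrArg RA.snd h0
        rw [← hf, Submodule.mkQ_apply, Submodule.liftQ_apply] at h1
        exact hnu1 h1
  · obtain ⟨x, hx⟩ : ∃ x, b.fst x ≠ 0 := by
      by_contra h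
      push Not at h
      exact hb1 (LinearMap.ext h)
    refine ⟨fun a => ⟨0, a.fst x⟩, ?_, ?_, ?_⟩
    · intro a b
      rw [RA_add]
      exact RA.ext (add_zero _).symm rfl
    · intro a b _ _
      rw [RA_mul, RB_mul]
      apply RA.ext
      · rfl
      · change (0 : Module.Dual (ZMod 2) X) x = 0 * 0
        simp
    · intro h0
      exact hx (congrArg RA.snd h0)

end ringB

section field

variable (F : Type) [Field F] [Algebra (ZMod 2) F]

/-- the norm form -/
def N (c : F) (x : F × F) : F := x.1 * x.1 + x.1 * x.2 + c * (x.2 * x.2)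

/-- the subspace of functions `φ ∘ N` -/
def KN (c : F) : Submodule (ZMod 2) (F × F → ZMod 2) where
  carrier := {f | ∃ φ : Module.Dual (ZMod 2) F, f = fun x => φ (N F c x)}
  zero_mem' := ⟨0, rfl⟩
  add_mem' := by
    rintro _ _ ⟨φ, rfl⟩ ⟨ψ, rfl⟩
    exact ⟨φ + ψ, rfl⟩
  smul_mem' := by
    rintro r _ ⟨φ, rfl⟩
    exact ⟨r • φ, rfl⟩

variable {F}

theorem two_zero (z : F) : z + z = 0 := by
  have : (2 : ZMod 2) = 0 := rfl
  calc z + z = (2 : ZMod 2) • z := by rw [two_smul]
    _ = 0 := by rw [this, zero_smul]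

theorem N_add (c : F) (x y : F × F) :
    N F c (x + y) = N F c x + N F c y + (x.1 * y.2 + x.2 * y.1) := by
  unfold N
  simp only [Prod.fst_add, Prod.snd_add]
  have e1 := two_zero (x.1 * y.1)
  have e2 := two_zero (c * (x.2 * y.2))
  linear_combination e1 + e2

theorem KN_inf_Sq (c : F) (V' : Submodule (ZMod 2) (Module.Dual (ZMod 2) (F × F))) (y : F × F)
    (hy0 : y ≠ 0) (hy : ∀ v ∈ V', v y = 0) : KN F c ⊓ Sq V' = ⊥ := by
  rw [eq_bot_iff]
  rintro f ⟨⟨φ, rfl⟩, hS⟩
  have hinv : ∀ x : F × F, φ (N F c (x + y)) = φ (N F c x) := Sq_invariant V' y hy _ hS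
  have h0 : φ (N F c y) = 0 := by
    have h1 := hinv 0
    rw [zero_add] at h1
    rw [h1]
    have : N F c 0 = 0 := by simp [N]
    rw [this, map_zero]
  have h1 : ∀ x : F × F, φ (x.1 * y.2 + x.2 * y.1) = 0 := by
    intro x
    have h2 := hinv x
    rw [N_add, map_add, map_add, h0, add_zero] at h2
    exact add_eq_left.1 h2
  have h2 : ∀ z : F, φ z = 0 := by
    intro z
    by_cases hy2 : y.2 = 0
    · have hy1 : y.1 ≠ 0 := fun h => hy0 (Prod.ext h hy2)
      have := h1 (0, z / y.1)
      simpa [hy2, div_mul_cancel₀ z hy1] using this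
    · have := h1 (z / y.2, 0)
      simpa [div_mul_cancel₀ z hy2] using this
  rw [Submodule.mem_bot]
  funext x
  exact h2 _

theorem N_eq_zero (c : F) (hc : ∀ t : F, t * t + t ≠ c) (x : F × F) (hx : N F c x = 0) :
    x = 0 := by
  unfold N at hx
  by_cases h2 : x.2 = 0
  · rw [h2] at hx
    have h1 : x.1 = 0 := by simpa using hx
    exact Prod.ext h1 h2
  · exfalso
    apply hc (x.1 / x.2)
    have h3 : (x.1 / x.2 * (x.1 / x.2) + x.1 / x.2 + c) * (x.2 * x.2) = 0 := by
      rw [← hx]
      field_simp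
    have h4 := (mul_eq_zero.1 h3).resolve_right (mul_ne_zero h2 h2)
    have h5 := two_zero c
    linear_combination h4 - h5

theorem exists_c [Finite F] : ∃ c : F, ∀ t : F, t * t + t ≠ c := by
  by_contra h
  push Not at h
  have hsurj : Function.Surjective (fun t : F => t * t + t) := h
  have hinj := Finite.injective_iff_surjective.2 hsurj
  have h1 : (0 : F) = 1 := hinj (by
    change (0 : F) * 0 + 0 = 1 * 1 + 1
    rw [mul_one, two_zero]
    simp)
  exact zero_ne_one h1

theorem mul_mem_Sq (P Q : F × F →ₗ[ZMod 2] F) [FiniteDimensional (ZMod 2) F]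
    (φ : Module.Dual (ZMod 2) F) : (fun x => φ (P x * Q x)) ∈ Sq (X := F × F) ⊤ := by
  set b := Module.finBasis (ZMod 2) F with hb
  have h1 : (fun x : F × F => φ (P x * Q x)) =
      ∑ i, pw ((b.coord i) ∘ₗ P) (φ ∘ₗ (LinearMap.mul (ZMod 2) F (b i)) ∘ₗ Q) := by
    funext x
    rw [Finset.sum_apply]
    conv_lhs => rw [← b.sum_repr (P x), Finset.sum_mul, map_sum]
    refine Finset.sum_congr rfl fun i _ => ?_
    rw [smul_mul_assoc, map_smul]
    rfl
  rw [h1]
  exact Submodule.sum_mem _ fun i _ => Submodule.subset_span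
    ⟨_, Submodule.mem_top, _, Submodule.mem_top, rfl⟩

theorem KN_le (c : F) [FiniteDimensional (ZMod 2) F] : KN F c ≤ Sq (X := F × F) ⊤ := by
  rintro _ ⟨φ, rfl⟩
  have h1 : (fun x : F × F => φ (N F c x)) =
      (fun x => φ (LinearMap.fst (ZMod 2) F F x * LinearMap.fst (ZMod 2) F F x)) +
      (fun x => φ (LinearMap.fst (ZMod 2) F F x * LinearMap.snd (ZMod 2) F F x)) +
      (fun x => φ ((LinearMap.mul (ZMod 2) F c ∘ₗ LinearMap.snd (ZMod 2) F F) x *
        LinearMap.snd (ZMod 2) F F x)) := by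
    funext x
    change φ (N F c x) = φ (x.1 * x.1) + φ (x.1 * x.2) + φ ((c * x.2) * x.2)
    rw [← map_add, ← map_add, mul_assoc]
    rfl
  rw [h1]
  exact Submodule.add_mem _ (Submodule.add_mem _ (mul_mem_Sq _ _ φ) (mul_mem_Sq _ _ φ))
    (mul_mem_Sq _ _ φ)

/-- every homomorphism to `A` kills products -/
theorem hom_kills (c : F) [FiniteDimensional (ZMod 2) F] (hc : ∀ t : F, t * t + t ≠ c)
    (h : RB (F × F) (KN F c) → RA) (hadd : ∀ a b, h (a + b) = h a + h b)
    (hmul : ∀ a b, h (a * b) = h a * h b) (v : Module.Dual (ZMod 2) (F × F)) :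
    h ⟨0, (KN F c).mkQ (pw v v)⟩ = 0 := by
  -- additive functionals
  have h00 : h 0 = 0 := by
    have := hadd 0 0
    rw [add_zero] at this
    exact left_eq_add.1 this
  let lam0 : Module.Dual (ZMod 2) (F × F) →+ ZMod 2 :=
    { toFun := fun v => (h ⟨v, 0⟩).fst
      map_zero' := by
        change (h 0).fst = 0
        rw [h00]
        rfl
      map_add' := by
        intro v w
        have : (⟨v + w, 0⟩ : RB (F × F) (KN F c)) = ⟨v, 0⟩ + ⟨w, 0⟩ := by
          rw [RB_add, add_zero]
        change (h ⟨v + w, 0⟩).fst = _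
        rw [this, hadd]
        rfl }
  let lam : Module.Dual (ZMod 2) (Module.Dual (ZMod 2) (F × F)) := lam0.toZModLinearMap 2
  obtain ⟨x, hx⟩ := (Module.evalEquiv (ZMod 2) (F × F)).surjective lam
  have hlam : ∀ v : Module.Dual (ZMod 2) (F × F), (h ⟨v, 0⟩).fst = v x := by
    intro v
    have h1 : lam v = v x := by
      rw [← hx]
      rfl
    exact h1
  have hprod : ∀ v w : Module.Dual (ZMod 2) (F × F),
      h ⟨0, (KN F c).mkQ (pw v w)⟩ = ⟨0, v x * w x⟩ := by
    intro v w
    have h1 := hmul ⟨v, 0⟩ ⟨w, 0⟩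
    rw [RB_mul, RA_mul, hlam, hlam] at h1
    exact h1
  have hS : ∀ s ∈ Sq (X := F × F) ⊤, h ⟨0, (KN F c).mkQ s⟩ = ⟨0, s x⟩ := by
    intro s hs
    unfold Sq at hs
    induction hs using Submodule.span_induction with
    | mem s hs =>
      obtain ⟨v, -, w, -, rfl⟩ := hs
      exact hprod v w
    | zero =>
      rw [map_zero]
      exact h00
    | add s t _ _ hs ht =>
      have : (⟨0, (KN F c).mkQ (s + t)⟩ : RB (F × F) (KN F c)) =
          ⟨0, (KN F c).mkQ s⟩ + ⟨0, (KN F c).mkQ t⟩ := by
        rw [RB_add, add_zero, map_add]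
      rw [this, hadd, hs, ht, RA_add, add_zero]
      rfl
    | smul r s _ hs =>
      have hr : r = 0 ∨ r = 1 := by
        fin_cases r
        · exact Or.inl rfl
        · exact Or.inr rfl
      rcases hr with rfl | rfl
      · rw [zero_smul, map_zero]
        exact h00
      · rw [one_smul]
        exact hs
  have hN : ∀ φ : Module.Dual (ZMod 2) F, φ (N F c x) = 0 := by
    intro φ
    have hk : (fun x => φ (N F c x)) ∈ KN F c := ⟨φ, rfl⟩
    have h1 := hS _ (KN_le c hk)
    have h2 : (KN F c).mkQ (fun x => φ (N F c x)) = 0 := by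
      rwa [Submodule.mkQ_apply, Submodule.Quotient.mk_eq_zero]
    rw [h2] at h1
    have h3 : h ⟨0, 0⟩ = 0 := h00
    rw [h3] at h1
    exact (congrArg RA.snd h1).symm
  have hx0 : x = 0 := N_eq_zero c hc x ((Module.forall_dual_apply_eq_zero_iff (ZMod 2) _).1 hN)
  rw [hprod, hx0, map_zero, zero_mul]
  rfl

end field

section diagram

/-- the diagram quasi-identity of a finite ring `B` with enumeration `e`, with conclusion
`x_b = 0` -/
noncomputable def diag {B : Type} [NonUnitalNonAssocRing B] [Fintype B] {n : ℕ} (e : B ≃ Fin n)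
    (b : B) : QuasiIdentity where
  hyps := (Finset.univ : Finset (B × B)).toList.map (fun p =>
      (RTerm.add (.var (e p.1)) (.var (e p.2)), RTerm.var (e (p.1 + p.2)))) ++
    (Finset.univ : Finset (B × B)).toList.map (fun p =>
      (RTerm.mul (.var (e p.1)) (.var (e p.2)), RTerm.var (e (p.1 * p.2))))
  lhs := .var (e b)
  rhs := .zero

theorem diag_holds {A B : Type} [NonUnitalNonAssocRing A] [NonUnitalNonAssocRing B] [Fintype B]
    {n : ℕ} (e : B ≃ Fin n) (b : B)
    (hkill : ∀ h : B → A, (∀ x y, h (x + y) = h x + h y) → (∀ x y, h (x * y) = h x * h y) →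
      h b = 0) : Holds A (diag e b) := by
  intro x hx
  apply hkill (fun z => x (e z))
  · intro y z
    have := hx (RTerm.add (.var (e y)) (.var (e z)), RTerm.var (e (y + z))) (by
      unfold diag
      rw [List.mem_append]
      exact Or.inl (List.mem_map.2 ⟨(y, z), by simp, rfl⟩))
    exact this.symm
  · intro y z
    have := hx (RTerm.mul (.var (e y)) (.var (e z)), RTerm.var (e (y * z))) (by
      unfold diag
      rw [List.mem_append]
      exact Or.inr (List.mem_map.2 ⟨(y, z), by simp, rfl⟩))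
    exact this.symm

theorem diag_fails {B : Type} [NonUnitalNonAssocRing B] [Fintype B]
    {n : ℕ} (e : B ≃ Fin n) (b : B) (hb : b ≠ 0) : ¬ Holds B (diag e b) := by
  intro h
  obtain ⟨asg, hasg⟩ : ∃ asg : ℕ → B, ∀ z : B, asg (e z) = z :=
    ⟨fun k : ℕ => if hk : k < n then e.symm ⟨k, hk⟩ else 0, fun z => by simp⟩
  have h1 := h asg (by
    intro p hp
    unfold diag at hp
    rw [List.mem_append] at hp
    rcases hp with hp | hp
    · obtain ⟨⟨y, z⟩, -, rfl⟩ := List.mem_map.1 hp
      simp only [RTerm.eval]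
      rw [hasg, hasg, hasg]
    · obtain ⟨⟨y, z⟩, -, rfl⟩ := List.mem_map.1 hp
      simp only [RTerm.eval]
      rw [hasg, hasg, hasg])
  apply hb
  have h2 : asg (e b) = (0 : B) := h1
  rw [hasg] at h2
  exact h2

end diagram

section main

theorem holds_local {X : Type} [AddCommGroup X] [Module (ZMod 2) X]
    [FiniteDimensional (ZMod 2) X] (K : Submodule (ZMod 2) (X → ZMod 2)) (d : ℕ)
    (hd : d < Module.finrank (ZMod 2) X)
    (hK : ∀ (V' : Submodule (ZMod 2) (Module.Dual (ZMod 2) X)) (y : X), y ≠ 0 →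
      (∀ v ∈ V', v y = 0) → K ⊓ Sq V' = ⊥)
    (q : QuasiIdentity) (hq : q.bound ≤ d) (hA : Holds RA q) : Holds (RB X K) q := by
  intro x hx
  -- reduce to assignments with finitely many values
  set x' : ℕ → RB X K := fun n => if n < d then x n else 0 with hx'
  have hxx' : ∀ t : RTerm, t.bound ≤ d → t.eval x = t.eval x' := by
    intro t ht
    apply eval_congr
    intro n hn
    rw [hx']
    simp only
    rw [if_pos (lt_of_lt_of_le hn ht)]
  have hlb : q.lhs.bound ≤ d := by
    unfold QuasiIdentity.bound at hq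
    omega
  have hrb : q.rhs.bound ≤ d := by
    unfold QuasiIdentity.bound at hq
    omega
  rw [hxx' _ hlb, hxx' _ hrb]
  by_contra hne
  set V' : Submodule (ZMod 2) (Module.Dual (ZMod 2) X) :=
    Submodule.span (ZMod 2) (Set.range fun i : Fin d => (x i).fst) with hV'
  obtain ⟨y, hy0, hy⟩ : ∃ y : X, y ≠ 0 ∧ ∀ v ∈ V', v y = 0 := by
    have hker : LinearMap.ker (LinearMap.pi fun i : Fin d => (x i).fst) ≠ ⊥ := by
      apply LinearMap.ker_ne_bot_of_finrank_lt
      rw [Module.finrank_fin_fun]
      exact hd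
    obtain ⟨y, hy, hy0⟩ := Submodule.exists_mem_ne_zero_of_ne_bot hker
    refine ⟨y, hy0, fun v hv => ?_⟩
    rw [hV'] at hv
    induction hv using Submodule.span_induction with
    | mem v hv =>
      obtain ⟨i, rfl⟩ := hv
      exact congrFun (LinearMap.mem_ker.1 hy) i
    | zero => rfl
    | add v w _ _ hv hw => rw [LinearMap.add_apply, hv, hw, add_zero]
    | smul r v _ hv => rw [LinearMap.smul_apply, hv, smul_zero]
  obtain ⟨h, hadd, hmul, hb⟩ := separate V' (hK V' y hy0 hy)
    (q.lhs.eval x' + -q.rhs.eval x') (fun h0 => hne (by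
      rw [← sub_eq_add_neg] at h0
      exact sub_eq_zero.1 h0))
  have h00 : h 0 = 0 := by
    have := hadd 0 0
    rw [add_zero] at this
    exact left_eq_add.1 this
  have hneg : ∀ a, h (-a) = - h a := by
    intro a
    have := hadd a (-a)
    rw [add_neg_cancel, h00] at this
    exact (neg_eq_of_add_eq_zero_right this.symm).symm
  have hx'V : ∀ n, (x' n).fst ∈ V' := by
    intro n
    rw [hx']
    simp only
    split_ifs with hn
    · exact Submodule.subset_span ⟨⟨n, hn⟩, rfl⟩
    · exact Submodule.zero_mem _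
  have heval : ∀ t : RTerm, (t.eval x').fst ∈ V' ∧ h (t.eval x') = t.eval (fun n => h (x' n)) := by
    intro t
    induction t with
    | var n => exact ⟨hx'V n, rfl⟩
    | zero => exact ⟨Submodule.zero_mem _, h00⟩
    | neg s ih =>
      refine ⟨?_, ?_⟩
      · rw [RTerm.eval, RB_neg]
        exact Submodule.neg_mem _ ih.1
      · rw [RTerm.eval, hneg, ih.2, RTerm.eval]
    | add s t ihs iht =>
      refine ⟨?_, ?_⟩
      · rw [RTerm.eval, RB_add]
        exact Submodule.add_mem _ ihs.1 iht.1
      · rw [RTerm.eval, hadd, ihs.2, iht.2, RTerm.eval]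
    | mul s t ihs iht =>
      refine ⟨?_, ?_⟩
      · rw [RTerm.eval, RB_mul]
        exact Submodule.zero_mem _
      · rw [RTerm.eval, hmul _ _ ihs.1 iht.1, ihs.2, iht.2, RTerm.eval]
  have hconcl := hA (fun n => h (x' n)) (by
    intro p hp
    rw [← (heval p.1).2, ← (heval p.2).2, ← hxx' _ ((hyp_bound q p hp).1.trans hq),
      ← hxx' _ ((hyp_bound q p hp).2.trans hq), hx p hp])
  rw [← (heval q.lhs).2, ← (heval q.rhs).2] at hconcl
  apply hb
  rw [hadd, hneg, hconcl, add_neg_cancel]

end main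

/-- There is a finite ring (with four elements) that is alternative and a Jordan ring, and that has
no finite basis of quasi-identities. -/
theorem result : ∃ (A : Type) (_ : NonUnitalNonAssocRing A),
    Finite A ∧ IsAlternative A ∧ IsJordanRing A ∧ ¬ ∃ S : Set QuasiIdentity, S.Finite ∧
      IsBasis A S := by
  refine ⟨RA, inferInstance, inferInstance, RA_alt, RA_jordan, ?_⟩
  rintro ⟨S, hS, hSA, hbasis⟩
  obtain ⟨d, hd⟩ : ∃ d, ∀ q ∈ S, q.bound ≤ d := by
    obtain ⟨d, hd⟩ := (hS.image QuasiIdentity.bound).bddAbove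
    exact ⟨d, fun q hq => hd ⟨q, hq, rfl⟩⟩
  have hF2 : Module.finrank (ZMod 2) (GaloisField 2 (d + 1)) = d + 1 :=
    GaloisField.finrank 2 (Nat.succ_ne_zero d)
  have hfin : FiniteDimensional (ZMod 2) (GaloisField 2 (d + 1)) :=
    FiniteDimensional.of_finrank_pos (by rw [hF2]; exact Nat.succ_pos d)
  have hfin' : Finite (GaloisField 2 (d + 1)) := Module.finite_of_finite (ZMod 2)
  obtain ⟨c, hc⟩ := exists_c (F := GaloisField 2 (d + 1))
  have hX : d < Module.finrank (ZMod 2) (GaloisField 2 (d + 1) × GaloisField 2 (d + 1)) := by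
    rw [Module.finrank_prod, hF2]
    omega
  set K := KN (GaloisField 2 (d + 1)) c with hK
  -- all members of `S` hold in `B`
  have hB : ∀ p ∈ S, Holds (RB (GaloisField 2 (d + 1) × GaloisField 2 (d + 1)) K) p :=
    fun p hp => holds_local K d hX (fun V' y hy0 hy => KN_inf_Sq c V' y hy0 hy) p (hd p hp)
      (hSA p hp)
  have hfB : Finite (RB (GaloisField 2 (d + 1) × GaloisField 2 (d + 1)) K) := inferInstance
  obtain ⟨n, ⟨e⟩⟩ := Finite.exists_equiv_fin
    (RB (GaloisField 2 (d + 1) × GaloisField 2 (d + 1)) K)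
  have := Fintype.ofFinite (RB (GaloisField 2 (d + 1) × GaloisField 2 (d + 1)) K)
  -- a nonzero functional
  obtain ⟨v, hv⟩ : ∃ v : Module.Dual (ZMod 2) (GaloisField 2 (d + 1) × GaloisField 2 (d + 1)),
      v ≠ 0 := by
    have hnt : Nontrivial (GaloisField 2 (d + 1) × GaloisField 2 (d + 1)) := inferInstance
    obtain ⟨x, hx⟩ := exists_ne (0 : GaloisField 2 (d + 1) × GaloisField 2 (d + 1))
    by_contra h
    push Not at h
    exact hx ((Module.forall_dual_apply_eq_zero_iff (ZMod 2) x).1 fun φ => by rw [h φ]; rfl)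
  have hb : (⟨0, K.mkQ (pw v v)⟩ :
      RB (GaloisField 2 (d + 1) × GaloisField 2 (d + 1)) K) ≠ 0 := by
    intro h0
    have h1 : K.mkQ (pw v v) = 0 := congrArg RB.snd h0
    rw [Submodule.mkQ_apply, Submodule.Quotient.mk_eq_zero] at h1
    obtain ⟨y, hy0, hy⟩ : ∃ y : GaloisField 2 (d + 1) × GaloisField 2 (d + 1),
        y ≠ 0 ∧ v y = 0 := by
      have hker : LinearMap.ker v ≠ ⊥ := by
        apply LinearMap.ker_ne_bot_of_finrank_lt
        rw [Module.finrank_self, Module.finrank_prod, hF2]
        omega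
      obtain ⟨y, hy, hy0⟩ := Submodule.exists_mem_ne_zero_of_ne_bot hker
      exact ⟨y, hy0, hy⟩
    have h2 := KN_inf_Sq c (Submodule.span (ZMod 2) {v}) y hy0 (by
      intro w hw
      obtain ⟨r, rfl⟩ := Submodule.mem_span_singleton.1 hw
      rw [LinearMap.smul_apply, hy, smul_zero])
    have h3 : pw v v ∈ K ⊓ Sq (Submodule.span (ZMod 2) {v}) := ⟨h1, Submodule.subset_span
      ⟨v, Submodule.mem_span_singleton_self v, v, Submodule.mem_span_singleton_self v, rfl⟩⟩
    rw [h2, Submodule.mem_bot] at h3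
    apply hv
    apply LinearMap.ext
    intro x
    have h4 : v x * v x = 0 := congrFun h3 x
    exact mul_self_eq_zero.1 h4
  exact diag_fails e _ hb (hbasis (diag e _) (diag_holds e _ fun h hadd hmul =>
    hom_kills c hc h hadd hmul v) _ hB)

end Pool.Agent.Results.MP_db5ef1_al.NoFiniteBasis
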